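import Mathlib

namespace Pool.Agent.H.MP_61cfb3_pr

open Set

lemma enum (Z : Set ℝ) (h0 : ∀ x ∈ Z, 0 < x) (hf : ∀ T, (Z ∩ Iic T).Finite) (u : ℕ → ℝ)
    (hu : StrictMono u) (huZ : ∀ i, u i ∈ Z) :
    ∃ t : ℕ → ℝ, StrictMono t ∧ range t = Z ∧ ∀ i, t i ≤ u i := by
  have hinf : Z.Infinite := infinite_of_injective_forall_mem hu.injective huZ
  have hmin : ∀ T, ∃ x, x ∈ Z ∧ T < x ∧ ∀ y ∈ Z, T < y → x ≤ y := by
    intro T
    obtain ⟨z, hz, hz'⟩ := (hinf.diff (hf T)).nonempty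
    have hTz : T < z := by
      by_contra hc
      exact hz' ⟨hz, not_lt.1 hc⟩
    obtain ⟨x, ⟨⟨hx, hxz⟩, hxT⟩, hx'⟩ := Set.exists_min_image ((Z ∩ Iic z) ∩ Ioi T) id
      ((hf z).subset inter_subset_left) ⟨z, ⟨hz, le_refl z⟩, hTz⟩
    refine ⟨x, hx, hxT, fun y hy hTy => ?_⟩
    by_cases hyz : y ≤ z
    · exact hx' y ⟨⟨hy, hyz⟩, hTy⟩
    · exact le_trans hxz (not_le.1 hyz).le
  choose nx h1 h2 h3 using hmin
  let t : ℕ → ℝ := fun n => Nat.rec (nx 0) (fun _ x => nx x) n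
  have t0 : t 0 = nx 0 := rfl
  have ts : ∀ n, t (n + 1) = nx (t n) := fun _ => rfl
  have tm : StrictMono t := strictMono_nat_of_lt_succ fun n => by rw [ts]; exact h2 _
  have tZ : ∀ n, t n ∈ Z := by
    intro n
    cases n with
    | zero => exact h1 _
    | succ n => rw [ts]; exact h1 _
  refine ⟨t, tm, Subset.antisymm (range_subset_iff.2 tZ) fun x hx => ?_, fun i => ?_⟩
  · have hex : ∃ n, x ≤ t n := by
      by_contra hc
      push Not at hc
      exact (infinite_of_injective_forall_mem tm.injective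
        (fun n => (⟨tZ n, (hc n).le⟩ : t n ∈ Z ∩ Iic x))) (hf x)
    obtain ⟨n, hs, hm⟩ := wellFounded_lt.has_min {n | x ≤ t n} hex
    refine ⟨n, le_antisymm ?_ hs⟩
    cases n with
    | zero => exact h3 0 x hx (h0 x hx)
    | succ k =>
      rw [ts]
      exact h3 _ x hx (not_le.1 fun hc => hm k hc (Nat.lt_succ_self k))
  · induction i with
    | zero => exact h3 0 _ (huZ 0) (h0 _ (huZ 0))
    | succ k ih =>
      rw [ts]
      exact h3 _ _ (huZ _) (lt_of_le_of_lt ih (hu (Nat.lt_succ_self k)))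

noncomputable def g (b d s : ℝ) : ℝ :=
  min s (min (max (2 * (b + d) - s) (s - 2 * d)) (2 + 2 * d - s))

lemma g_lip (b d s s' : ℝ) : |g b d s - g b d s'| ≤ |s - s'| := by
  have h1 := le_abs_self (s - s')
  have h2 := neg_abs_le (s - s')
  unfold g
  rw [abs_le]
  constructor <;> simp only [min_def, max_def] <;> split_ifs <;> linarith

lemma g_bd {b d s : ℝ} (hb : 0 ≤ b) (h0 : 0 ≤ s) (h1 : s ≤ 2 + 2 * d) :
    0 ≤ g b d s ∧ g b d s ≤ s ∧ g b d s ≤ 2 + 2 * d - s := by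
  unfold g
  refine ⟨?_, min_le_left _ _, (min_le_right _ _).trans (min_le_right _ _)⟩
  simp only [min_def, max_def]
  split_ifs <;> linarith

lemma g_out {b d s : ℝ} (hb : b ≤ 1) (h : s ≤ b + d) : g b d s = s := by
  unfold g
  simp only [min_def, max_def]
  split_ifs <;> linarith

lemma g_mid {b d h : ℝ} (hd : 0 ≤ d) (h0 : b ≤ h) (h1 : h ≤ 1) : g b d (2 * d + h) = h := by
  unfold g
  simp only [min_def, max_def]
  split_ifs <;> linarith

lemma g_back {b d h : ℝ} (hd : 0 ≤ d) (h1 : h ≤ 1) : g b d (2 + 2 * d - h) = h := by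
  unfold g
  simp only [min_def, max_def]
  split_ifs <;> linarith

lemma g_cases (b d s : ℝ) : s = g b d s ∨ s = 2 * (b + d) - g b d s ∨ s = g b d s + 2 * d ∨
    s = 2 + 2 * d - g b d s := by
  unfold g
  simp only [min_def, max_def]
  split_ifs <;> simp

lemma decomp {a d τ : ℝ} (ha : 1 < a) (hd : 0 < d) (hτ : τ * (a - 1) = 2 + 2 * d) {t : ℝ}
    (ht : 0 < t) : ∃ (n : ℤ) (s : ℝ), 0 ≤ s ∧ s < 2 + 2 * d ∧ t = a ^ n * (τ + s) := by
  have hτ0 : 0 < τ := by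
    by_contra hc
    nlinarith [not_lt.1 hc]
  obtain ⟨n, h1, h2⟩ := exists_mem_Ico_zpow (div_pos ht hτ0) ha
  have hp : 0 < a ^ n := zpow_pos (by linarith) n
  rw [zpow_add_one₀ (by linarith)] at h2
  rw [le_div_iff₀ hτ0] at h1
  rw [div_lt_iff₀ hτ0] at h2
  refine ⟨n, t / a ^ n - τ, ?_, ?_, by field_simp; ring⟩
  · rw [sub_nonneg, le_div_iff₀ hp]; linarith
  · rw [sub_lt_iff_lt_add, div_lt_iff₀ hp]; nlinarith

lemma lt_of_idx {a d τ : ℝ} (ha : 1 < a) (hd : 0 < d) (hτ : τ * (a - 1) = 2 + 2 * d) {n m : ℤ}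
    (h : n < m) : a ^ n * (τ + (2 + 2 * d)) ≤ a ^ m * τ := by
  have hτ0 : 0 < τ := by
    by_contra hc
    nlinarith [not_lt.1 hc]
  have h1 : a ^ (n + 1) ≤ a ^ m := zpow_le_zpow_right₀ ha.le (by omega)
  rw [zpow_add_one₀ (by linarith)] at h1
  have : τ + (2 + 2 * d) = a * τ := by linarith
  rw [this, ← mul_assoc]
  exact mul_le_mul_of_nonneg_right h1 hτ0.le

lemma exS {a d τ : ℝ} (b : ℝ) (ha : 1 < a) (hd : 0 < d) (hτ : τ * (a - 1) = 2 + 2 * d) :
    ∃ S : ℝ → ℝ, (∀ t ≤ 0, S t = 0) ∧ ∀ (n : ℤ) (s : ℝ), 0 ≤ s → s < 2 + 2 * d →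
      S (a ^ n * (τ + s)) = (-a) ^ n * g b d s := by
  have hτ0 : 0 < τ := by
    by_contra hc
    nlinarith [not_lt.1 hc]
  choose N σ h1 h2 h3 using fun (t : ℝ) (ht : 0 < t) => decomp ha hd hτ ht
  refine ⟨fun t => if ht : 0 < t then (-a) ^ N t ht * g b d (σ t ht) else 0,
    fun t ht => dif_neg (not_lt.2 ht), fun n s hs0 hs1 => ?_⟩
  have hp : ∀ k : ℤ, 0 < a ^ k := fun k => zpow_pos (by linarith) k
  have ht : 0 < a ^ n * (τ + s) := mul_pos (hp n) (by linarith)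
  simp only [dif_pos ht]
  have e := h3 _ ht
  have e1 := h1 _ ht
  have e2 := h2 _ ht
  generalize N _ ht = m at *
  generalize σ _ ht = s' at *
  have hnm : m = n := by
    rcases lt_trichotomy m n with h | h | h
    · have := lt_of_idx ha hd hτ h
      nlinarith [hp m, hp n]
    · exact h
    · have := lt_of_idx ha hd hτ h
      nlinarith [hp m, hp n]
  subst hnm
  have : s = s' := by
    have := mul_left_cancel₀ (hp m).ne' e
    linarith
  rw [this]

lemma lipS {a b d τ : ℝ} (hb : 0 ≤ b) (ha : 1 < a) (hd : 0 < d) (hτ : τ * (a - 1) = 2 + 2 * d)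
    {S : ℝ → ℝ} (hS0 : ∀ t ≤ 0, S t = 0) (hS : ∀ (n : ℤ) (s : ℝ), 0 ≤ s → s < 2 + 2 * d →
      S (a ^ n * (τ + s)) = (-a) ^ n * g b d s) : LipschitzWith 1 S := by
  have hτ0 : 0 < τ := by
    by_contra hc
    nlinarith [not_lt.1 hc]
  have hp : ∀ k : ℤ, 0 < a ^ k := fun k => zpow_pos (by linarith) k
  have hab : ∀ k : ℤ, |(-a) ^ k| = a ^ k := fun k => by
    rw [abs_zpow, abs_neg, abs_of_pos (by linarith)]
  have key : ∀ t t', t < t' → |S t - S t'| ≤ t' - t := by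
    intro t t' htt
    by_cases ht' : t' ≤ 0
    · rw [hS0 t (by linarith), hS0 t' ht']; simp; linarith
    obtain ⟨m, s', a1, a2, rfl⟩ := decomp ha hd hτ (not_le.1 ht')
    have b' := g_bd hb a1 a2.le
    have c' : |(-a) ^ m * g b d s'| ≤ a ^ m * s' := by
      rw [abs_mul, hab, abs_of_nonneg b'.1]
      exact mul_le_mul_of_nonneg_left b'.2.1 (hp m).le
    by_cases ht : t ≤ 0
    · rw [hS0 t ht, hS m s' a1 a2, zero_sub, abs_neg]
      nlinarith [hp m]
    obtain ⟨n, s, a3, a4, rfl⟩ := decomp ha hd hτ (not_le.1 ht)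
    rw [hS m s' a1 a2, hS n s a3 a4]
    have b0 := g_bd hb a3 a4.le
    rcases lt_trichotomy n m with h | h | h
    · have := lt_of_idx ha hd hτ h
      have c : |(-a) ^ n * g b d s| ≤ a ^ n * (2 + 2 * d - s) := by
        rw [abs_mul, hab, abs_of_nonneg b0.1]
        exact mul_le_mul_of_nonneg_left b0.2.2 (hp n).le
      have := abs_sub ((-a) ^ n * g b d s) ((-a) ^ m * g b d s')
      nlinarith
    · subst h
      rw [← mul_sub, abs_mul, hab]
      have h1 := g_lip b d s s'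
      have h2 : s < s' := by
        by_contra hc
        nlinarith [hp n, not_lt.1 hc]
      rw [abs_of_neg (by linarith : s - s' < 0)] at h1
      nlinarith [hp n]
    · have := lt_of_idx ha hd hτ h
      nlinarith [hp m, hp n]
  refine LipschitzWith.of_dist_le_mul fun x y => ?_
  rw [NNReal.coe_one, one_mul, Real.dist_eq, Real.dist_eq]
  rcases lt_trichotomy x y with h | h | h
  · exact (key x y h).trans (by rw [abs_sub_comm]; exact le_abs_self _)
  · simp [h]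
  · rw [abs_sub_comm]
    exact (key y x h).trans (le_abs_self _)

lemma finS {a b d τ : ℝ} (hb : 0 ≤ b) (ha : 1 < a) (hd : 0 < d) (hτ : τ * (a - 1) = 2 + 2 * d)
    {S : ℝ → ℝ} (hS0 : ∀ t ≤ 0, S t = 0) (hS : ∀ (n : ℤ) (s : ℝ), 0 ≤ s → s < 2 + 2 * d →
      S (a ^ n * (τ + s)) = (-a) ^ n * g b d s) {H : ℝ} (hH : H ≠ 0) (T : ℝ) :
    {u | 0 ≤ u ∧ u ≤ T ∧ S u = H}.Finite := by
  have hτ0 : 0 < τ := by
    by_contra hc
    nlinarith [not_lt.1 hc]
  have hp : ∀ k : ℤ, 0 < a ^ k := fun k => zpow_pos (by linarith) k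
  have hab : ∀ k : ℤ, |(-a) ^ k| = a ^ k := fun k => by
    rw [abs_zpow, abs_neg, abs_of_pos (by linarith)]
  obtain ⟨n0, hn0, -⟩ := exists_mem_Ico_zpow
    (div_pos (abs_pos.2 hH) (by linarith : 0 < 2 + 2 * d)) ha
  obtain ⟨n1, -, hn1⟩ := exists_mem_Ico_zpow (div_pos (by positivity : 0 < |T| + 1) hτ0) ha
  rw [le_div_iff₀ (by linarith)] at hn0
  rw [div_lt_iff₀ hτ0] at hn1
  refine ((finite_Icc n0 (n1 + 1)).biUnion (t := fun n : ℤ => (fun s => a ^ n * (τ + s)) ''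
    {H / (-a) ^ n, 2 * (b + d) - H / (-a) ^ n, H / (-a) ^ n + 2 * d, 2 + 2 * d - H / (-a) ^ n})
    fun n _ => (toFinite _).image _).subset ?_
  rintro u ⟨hu0, huT, hu⟩
  have hu' : 0 < u := by
    by_contra hc
    exact hH (hu ▸ hS0 u (not_lt.1 hc))
  obtain ⟨n, s, a1, a2, rfl⟩ := decomp ha hd hτ hu'
  rw [hS n s a1 a2] at hu
  have b0 := g_bd hb a1 a2.le
  have hne : (-a) ^ n ≠ 0 := zpow_ne_zero _ (by linarith)
  have hg : H / (-a) ^ n = g b d s := by rw [← hu]; field_simp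
  refine mem_biUnion (x := n) ⟨?_, ?_⟩ ⟨s, ?_, rfl⟩
  · have h1 : |H| < a ^ n * (2 + 2 * d) := by
      rw [← hu, abs_mul, hab, abs_of_nonneg b0.1]
      exact mul_lt_mul_of_pos_left (by linarith) (hp n)
    have h2 : a ^ n0 < a ^ n := lt_of_mul_lt_mul_right (lt_of_le_of_lt hn0 h1) (by linarith)
    exact ((zpow_lt_zpow_iff_right₀ ha).1 h2).le
  · have h1 : a ^ n * τ < a ^ (n1 + 1) * τ := by
      nlinarith [hp n, le_abs_self T]
    exact ((zpow_lt_zpow_iff_right₀ ha).1 (lt_of_mul_lt_mul_right h1 hτ0.le)).le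
  · rw [hg]
    simpa using g_cases b d s

lemma decH {a : ℝ} (ha : 1 < a) {H : ℝ} (hH : H ≠ 0) :
    ∃ (m : ℤ) (h : ℝ), 1 ≤ a ^ 2 * h ∧ h < 1 ∧ H = (-a) ^ m * h ∧ |H| = a ^ m * h := by
  have hp : ∀ k : ℤ, 0 < a ^ k := fun k => zpow_pos (by linarith) k
  obtain ⟨k, h1, h2⟩ := exists_mem_Ico_zpow (abs_pos.2 hH) ha
  have hk1 : a ^ (k + 1) = a ^ k * a := zpow_add_one₀ (by linarith) k
  have hk2 : a ^ (k + 1 + 1) = a ^ k * a * a := by rw [zpow_add_one₀ (by linarith), hk1]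
  have A : ∀ m : ℤ, (m = k + 1 ∨ m = k + 1 + 1) → H = (-a) ^ m * (|H| / a ^ m) →
      ∃ (m : ℤ) (h : ℝ), 1 ≤ a ^ 2 * h ∧ h < 1 ∧ H = (-a) ^ m * h ∧ |H| = a ^ m * h := by
    intro m hm e
    refine ⟨m, |H| / a ^ m, ?_, ?_, e, by have := hp m; field_simp⟩
    · rw [← mul_div_assoc, le_div_iff₀ (hp m)]
      have : a ^ k * a * a ≤ a ^ 2 * |H| := by nlinarith [hp k, mul_pos (by linarith : 0 < a) (by linarith : 0 < a)]
      rcases hm with rfl | rfl
      · rw [hk1]; nlinarith [mul_pos (hp k) (by linarith : 0 < a)]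
      · rw [hk2]; linarith
    · rw [div_lt_one (hp m)]
      rcases hm with rfl | rfl
      · exact h2
      · rw [hk2]; rw [hk1] at h2; nlinarith [mul_pos (hp k) (by linarith : 0 < a)]
  have E : ∀ m : ℤ, Even m → 0 < H → H = (-a) ^ m * (|H| / a ^ m) := by
    intro m hm h
    rw [hm.neg_zpow, abs_of_pos h]
    have := hp m
    field_simp
  have O : ∀ m : ℤ, Odd m → H < 0 → H = (-a) ^ m * (|H| / a ^ m) := by
    intro m hm h
    rw [hm.neg_zpow, abs_of_neg h]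
    have := hp m
    field_simp
  rcases lt_or_gt_of_ne hH with h | h <;> rcases Int.even_or_odd (k + 1) with e | e
  · exact A _ (Or.inr rfl) (O _ e.add_one h)
  · exact A _ (Or.inl rfl) (O _ e h)
  · exact A _ (Or.inl rfl) (E _ e h)
  · exact A _ (Or.inr rfl) (E _ e.add_one h)

noncomputable def w (a d τ h : ℝ) (k : ℕ) : ℝ :=
  τ * a ^ k + (-1) ^ k * h + if k = 0 then 2 * d else 0

lemma w_mono {a d τ h : ℝ} (ha : 1 < a) (hd : 0 < d) (hτ : τ * (a - 1) = 2 + 2 * d)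
    (h0 : 0 < h) (h1 : h < 1) : StrictMono (w a d τ h) := by
  refine strictMono_nat_of_lt_succ fun k => ?_
  have e : τ * a ^ (k + 1) = τ * a ^ k + (2 + 2 * d) * a ^ k := by rw [← hτ]; ring
  have e1 : 1 ≤ a ^ k := one_le_pow₀ ha.le
  have e2 : (-1 : ℝ) ^ k ≤ 1 := by
    rcases neg_one_pow_eq_or ℝ k with e | e <;> rw [e]
    norm_num
  unfold w
  rw [e, pow_succ (-1 : ℝ), if_neg (Nat.succ_ne_zero k)]
  split_ifs <;> nlinarith

lemma w_sum {a d τ h p : ℝ} (ha : 1 < a) (hp0 : 0 < p) (hp1 : p < 1) (hq : (1 - p) * a < 1) :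
    HasSum (fun k => (1 - p) ^ k * p * w a d τ h k)
      (p * τ * (1 - (1 - p) * a)⁻¹ + p * h * (1 - -(1 - p))⁻¹ + p * (2 * d)) := by
  have s1 := (hasSum_geometric_of_lt_one (by nlinarith : 0 ≤ (1 - p) * a) hq).mul_left (p * τ)
  have s2 := (hasSum_geometric_of_abs_lt_one (r := -(1 - p))
    (by rw [abs_neg, abs_of_pos (by linarith)]; linarith)).mul_left (p * h)
  have s3 := hasSum_ite_eq (0 : ℕ) (p * (2 * d))
  have e : (fun k => (1 - p) ^ k * p * w a d τ h k) = fun k => p * τ * ((1 - p) * a) ^ k +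
      p * h * (-(1 - p)) ^ k + if k = 0 then p * (2 * d) else 0 := by
    funext k
    unfold w
    rw [mul_pow, neg_pow (1 - p)]
    split_ifs with hk
    · subst hk; ring
    · ring
  rw [e]
  exact (s1.add s2).add s3

lemma w_mem {a b d τ h : ℝ} (ha : 1 < a) (hd : 0 < d) (hτ : τ * (a - 1) = 2 + 2 * d)
    (hb : a ^ 2 * b = 1) {S : ℝ → ℝ} (hS : ∀ (n : ℤ) (s : ℝ), 0 ≤ s → s < 2 + 2 * d →
      S (a ^ n * (τ + s)) = (-a) ^ n * g b d s) (h0 : 1 ≤ a ^ 2 * h) (h1 : h < 1) (m : ℤ)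
    (k : ℕ) : S (a ^ m * w a d τ h k) = (-a) ^ m * h := by
  have ha2 : 1 < a ^ 2 := by nlinarith
  have hbh : b ≤ h := by
    by_contra hc
    nlinarith [not_le.1 hc]
  have hb0 : 0 < b := by
    by_contra hc
    nlinarith [not_lt.1 hc]
  have a0 : a ≠ 0 := by linarith
  have hz : ∀ j : ℕ, a ^ (m + (2 * j : ℕ)) = a ^ m * (a ^ 2) ^ j := fun j => by
    rw [zpow_add₀ a0, zpow_natCast, pow_mul]
  have hz' : ∀ j : ℕ, (-a) ^ (m + (2 * j : ℕ)) = (-a) ^ m * (a ^ 2) ^ j := fun j => by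
    rw [zpow_add₀ (neg_ne_zero.2 a0), zpow_natCast, pow_mul, neg_sq]
  have hj : ∀ j : ℕ, 1 ≤ (a ^ 2) ^ j := fun j => one_le_pow₀ ha2.le
  have hd1 : ∀ j : ℕ, h / (a ^ 2) ^ j ≤ h := fun j => div_le_self (by linarith) (hj j)
  have hd0 : ∀ j : ℕ, 0 < h / (a ^ 2) ^ j := fun j => div_pos (by linarith) (by linarith [hj j])
  obtain ⟨j, rfl | rfl⟩ := Nat.even_or_odd' k
  · cases j with
    | zero =>
      have := hS m (2 * d + h) (by linarith) (by linarith)
      rw [g_mid hd.le hbh h1.le] at this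
      rw [← this]
      congr 2
      simp [w]
      ring
    | succ j =>
      have hle : h / (a ^ 2) ^ (j + 1) ≤ b + d := by
        rw [div_le_iff₀ (by linarith [hj (j + 1)]), pow_succ]
        have e1 : (b + d) * ((a ^ 2) ^ j * a ^ 2) =
            (a ^ 2) ^ j * (a ^ 2 * b) + d * ((a ^ 2) ^ j * a ^ 2) := by ring
        have e2 : 0 < d * ((a ^ 2) ^ j * a ^ 2) := by positivity
        rw [e1, hb]
        linarith [hj j]
      have := hS (m + (2 * (j + 1) : ℕ)) (h / (a ^ 2) ^ (j + 1)) (hd0 _).le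
        (by linarith [hd1 (j + 1)])
      rw [g_out (by nlinarith) hle, hz, hz'] at this
      have e : a ^ m * w a d τ h (2 * (j + 1)) =
          a ^ m * (a ^ 2) ^ (j + 1) * (τ + h / (a ^ 2) ^ (j + 1)) := by
        unfold w
        rw [if_neg (by omega), pow_mul, pow_mul (-1 : ℝ)]
        field_simp
        ring
      rw [e, this]
      field_simp
  · have := hS (m + (2 * j : ℕ)) (2 + 2 * d - h / (a ^ 2) ^ j) (by linarith [hd1 j])
      (by linarith [hd0 j])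
    rw [g_back hd.le (by linarith [hd1 j]), hz, hz'] at this
    have e : a ^ m * w a d τ h (2 * j + 1) =
        a ^ m * (a ^ 2) ^ j * (τ + (2 + 2 * d - h / (a ^ 2) ^ j)) := by
      unfold w
      rw [if_neg (by omega), pow_succ, pow_succ (-1 : ℝ), pow_mul, pow_mul (-1 : ℝ), ← hτ]
      field_simp
      ring
    rw [e, this]
    field_simp

end Pool.Agent.H.MP_61cfb3_pr
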